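import Pool.Agent.P.MP_c76d8c_an.AA.All
import Pool.Agent.P.MP_c76d8c_an.AA.Mom
import Pool.Agent.P.MP_c76d8c_an.AA.Pow

namespace Pool.Agent.Results.MP_c76d8c_an.AlmostAll

open Pool.Agent.P.MP_c76d8c_an.AA

/-- Eigenfunction bound on the 3-torus with the conjectured exponent up to `O(p ^ (-1 - b))`, for
all eigenvalues outside a set `E` of non-rich integers with at most `O(X ^ (1 - c))` elements
below `X`. -/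
theorem result :
    ∃ (E : Set ℕ) (c C₀ b B : ℝ), 0 < c ∧ 0 < b ∧ (∀ n ∈ E, ¬ Rich n) ∧
      (∀ X : ℕ, (({n | n < X ∧ n ∈ E} : Set ℕ).ncard : ℝ) ≤ C₀ * (X : ℝ) ^ (1 - c)) ∧
      ∀ p : ℝ, 2 ≤ p → ∃ C : ℝ, ∀ n : ℕ, 1 ≤ n → n ∉ E →
        ∀ S : Finset (Fin 3 → ℤ), (∀ ξ ∈ S, ∑ j, (ξ j) ^ 2 = (n : ℤ)) →
        ∀ a : (Fin 3 → ℤ) → ℂ,
          (∫ x in Set.univ.pi (fun _ : Fin 3 => Set.Icc (0 : ℝ) (2 * Real.pi)),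
              ‖∑ ξ ∈ S, a ξ * Complex.exp (Complex.I * ∑ j, ((ξ j : ℂ) * ((x j : ℝ) : ℂ)))‖ ^ p)
              ^ (1 / p)
            ≤ C * (Real.sqrt (n : ℝ)) ^ (1 / 2 - 3 / p + B * p ^ (-1 - b)) *
              (∫ x in Set.univ.pi (fun _ : Fin 3 => Set.Icc (0 : ℝ) (2 * Real.pi)),
                ‖∑ ξ ∈ S, a ξ * Complex.exp (Complex.I * ∑ j, ((ξ j : ℂ) * ((x j : ℝ) : ℂ)))‖ ^ (2 : ℝ))
                ^ (1 / 2 : ℝ) := by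
  obtain ⟨c, C₀, hc, h1⟩ := pow_saving mom
  obtain ⟨b, B, hb, h2⟩ := transfer fin_all
  refine ⟨{n | ¬ Rich n}, c, C₀, b, B, hc, hb, fun _ h => h, h1, fun p hp => ?_⟩
  obtain ⟨C, h3⟩ := h2 p hp
  exact ⟨C, fun n hn hE => h3 n hn (not_not.1 hE)⟩

end Pool.Agent.Results.MP_c76d8c_an.AlmostAll
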