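import Pool.Agent.P.MP_c76d8c_an.Tor

namespace Pool.Agent.Results.MP_c76d8c_an.L5

/-- Bourgain's eigenfunction bound on the 3-torus for `2 ≤ p ≤ 5`, and the exponent
`1/2 - 5/(2p)` for `p ≥ 5`. -/
theorem result :
    ∀ p : ℝ, 2 ≤ p → ∀ ε : ℝ, 0 < ε → ∃ C : ℝ, ∀ n : ℕ, 1 ≤ n →
      ∀ S : Finset (Fin 3 → ℤ), (∀ ξ ∈ S, ∑ j, (ξ j) ^ 2 = (n : ℤ)) →
      ∀ a : (Fin 3 → ℤ) → ℂ,
        (∫ x in Set.univ.pi (fun _ : Fin 3 => Set.Icc (0 : ℝ) (2 * Real.pi)),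
            ‖∑ ξ ∈ S, a ξ * Complex.exp (Complex.I * ∑ j, ((ξ j : ℂ) * ((x j : ℝ) : ℂ)))‖ ^ p)
            ^ (1 / p)
          ≤ C * (Real.sqrt (n : ℝ)) ^ (max (1 / 2 - 5 / (2 * p)) 0 + ε) *
            (∫ x in Set.univ.pi (fun _ : Fin 3 => Set.Icc (0 : ℝ) (2 * Real.pi)),
              ‖∑ ξ ∈ S, a ξ * Complex.exp (Complex.I * ∑ j, ((ξ j : ℂ) * ((x j : ℝ) : ℂ)))‖ ^ (2 : ℝ))
              ^ (1 / 2 : ℝ) :=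
  Pool.Agent.P.MP_c76d8c_an.main

end Pool.Agent.Results.MP_c76d8c_an.L5
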